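import Pool.Agent.Helper84.BT.Goals

/-!
# Packet BT-TAY
-/

set_option autoImplicit false

open Finset

namespace Pool.Agent.Helper31.BT.TAY

open Pool.Agent.Helper84.BT
open scoped Polynomial

theorem coeff_zero_comp (A : ℤ[X]) (p q : ℤ) :
    PowerSeries.coeff 0 ((A.comp (ph p q) : ℤ[X]) : PowerSeries ℤ) = A.eval q := by
  rw [Polynomial.coeff_coe, Polynomial.coeff_zero_eq_eval_zero, Polynomial.eval_comp]
  congr 1
  simp [ph]

theorem eval_sc (p q : ℤ) (m : ℕ) (P : ℤ[X]) :
    (sc p m P).eval q = ∑ n ∈ range (m + 1), P.coeff n * (4 * p) ^ (m - n) * q ^ n := by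
  unfold sc
  rw [Polynomial.eval_finsetSum]
  refine Finset.sum_congr rfl fun n _ => ?_
  rw [Polynomial.eval_mul, Polynomial.eval_C, Polynomial.eval_pow, Polynomial.eval_X]

theorem coeff_zero_mul (A B : PowerSeries ℤ) :
    PowerSeries.coeff 0 (A * B) = PowerSeries.coeff 0 A * PowerSeries.coeff 0 B := by
  simp only [PowerSeries.coeff_zero_eq_constantCoeff, map_mul]

theorem sum_pow_le (q : ℤ) (hq : 2 ≤ q) (t : ℕ) : ∑ n ∈ range (t + 1), q ^ n ≤ 2 * q ^ t := by
  induction t with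
  | zero => simp
  | succ t ih =>
    rw [Finset.sum_range_succ, pow_succ]
    have h1 : 0 < q ^ t := by positivity
    nlinarith

theorem t : S_TAY := by
  intro hS hP hC hD p q w t hp hpq hq hqw hwq ht heq
  by_contra hcon
  rw [not_le] at hcon
  have hq2 : 2 ≤ q := by omega
  have hpos : ∀ n, 0 < PowerSeries.coeff n (Sr (-1) (-p)) := hP p hp
  have hb : ∀ n : ℕ, PowerSeries.coeff n (Sr (-1) (-p)) ≤ ((n : ℤ) + 1) * (4 * p) ^ n := by
    intro n
    have h := (hS (-1) (-p)).2.2.2 p.toNat (by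
      rw [Int.toNat_of_nonneg (by omega), abs_neg, abs_one]
      omega) (by
      rw [Int.toNat_of_nonneg (by omega), abs_neg, abs_of_nonneg (by omega)]) n
    rw [Int.toNat_of_nonneg (by omega)] at h
    exact (le_abs_self _).trans h
  have hc0 : PowerSeries.coeff 0 (Sr (q - 1) (q - p)) = 1 := by
    have h := (hS (q - 1) (q - p)).1
    rwa [← PowerSeries.coeff_zero_eq_constantCoeff_apply] at h
  have key : ∀ T : ℕ, T + 1 ≤ 2 * t + 1 → q ^ (T + 1) ∣
      ∑ n ∈ range (T + 1), PowerSeries.coeff n (Sr (-1) (-p)) * (4 * p) ^ (T - n) * q ^ n -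
        w * (4 * p) ^ T := by
    intro T hT
    have h := hD hS hC p q w (T + 1) T (PowerSeries.trunc (T + 1) (Sr (-1) (-p))) 1 hp hpq hq hqw
      (by
        rw [heq, add_sub_cancel_right]
        exact Dvd.dvd.mul_left (pow_dvd_pow q hT) _)
      (Nat.lt_succ_iff.1 (PowerSeries.natDegree_trunc_lt _ _))
      (by rw [Polynomial.natDegree_one]; exact Nat.zero_le T)
      (by
        rw [PowerSeries.X_pow_dvd_iff]
        intro n hn
        rw [Polynomial.coe_one, mul_one, map_sub, Polynomial.coeff_coe, PowerSeries.coeff_trunc,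
          if_pos hn, sub_self]) 0 (Nat.zero_le _)
    rw [Nat.sub_zero] at h
    have e : PowerSeries.coeff 0 (Eh p q w T (PowerSeries.trunc (T + 1) (Sr (-1) (-p))) 1) =
        ∑ n ∈ range (T + 1), PowerSeries.coeff n (Sr (-1) (-p)) * (4 * p) ^ (T - n) * q ^ n -
        w * (4 * p) ^ T := by
      unfold Eh
      rw [map_sub, coeff_zero_comp, coeff_zero_mul, coeff_zero_mul, coeff_zero_comp, hc0,
        PowerSeries.coeff_zero_C, eval_sc, eval_sc]
      have e1 : ∀ n ∈ range (T + 1), (PowerSeries.trunc (T + 1) (Sr (-1) (-p))).coeff n *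
          (4 * p) ^ (T - n) * q ^ n =
          PowerSeries.coeff n (Sr (-1) (-p)) * (4 * p) ^ (T - n) * q ^ n := by
        intro n hn
        rw [PowerSeries.coeff_trunc, if_pos (Finset.mem_range.1 hn)]
      have e2 : ∑ n ∈ range (T + 1), (1 : ℤ[X]).coeff n * (4 * p) ^ (T - n) * q ^ n =
          (4 * p) ^ T := by
        rw [Finset.sum_eq_single 0]
        · simp
        · intro n _ hn
          rw [Polynomial.coeff_one, if_neg hn]
          ring
        · intro h0
          exact absurd (Finset.mem_range.2 (Nat.succ_pos T)) h0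
      rw [Finset.sum_congr rfl e1, e2, mul_one]
    rwa [e] at h
  have h1 := key t (by omega)
  have h2 := key (t + 1) (by omega)
  have hE : ∑ n ∈ range (t + 1), PowerSeries.coeff n (Sr (-1) (-p)) * (4 * p) ^ (t - n) * q ^ n -
        w * (4 * p) ^ t = 0 := by
    apply Int.eq_zero_of_abs_lt_dvd h1
    have hq0 : (0 : ℤ) < q ^ t := by positivity
    have hp0 : (0 : ℤ) < (4 * p) ^ t := by positivity
    have hs1 : |∑ n ∈ range (t + 1), PowerSeries.coeff n (Sr (-1) (-p)) * (4 * p) ^ (t - n) *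
        q ^ n| ≤ ((t : ℤ) + 1) * (4 * p) ^ t * (2 * q ^ t) := by
      refine (Finset.abs_sum_le_sum_abs _ _).trans ?_
      refine le_trans (Finset.sum_le_sum (g := fun n => ((t : ℤ) + 1) * (4 * p) ^ t * q ^ n) ?_) ?_
      · intro n hn
        have hn' : n ≤ t := Nat.lt_succ_iff.1 (Finset.mem_range.1 hn)
        have hqn : (0 : ℤ) < q ^ n := by positivity
        have hpn : (0 : ℤ) < (4 * p) ^ (t - n) := by positivity
        rw [abs_of_nonneg (mul_nonneg (mul_nonneg (hpos n).le hpn.le) hqn.le)]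
        refine mul_le_mul_of_nonneg_right ?_ hqn.le
        calc PowerSeries.coeff n (Sr (-1) (-p)) * (4 * p) ^ (t - n)
            ≤ (((n : ℤ) + 1) * (4 * p) ^ n) * (4 * p) ^ (t - n) :=
              mul_le_mul_of_nonneg_right (hb n) hpn.le
          _ = ((n : ℤ) + 1) * (4 * p) ^ t := by
              rw [mul_assoc, ← pow_add, Nat.add_sub_cancel' hn']
          _ ≤ ((t : ℤ) + 1) * (4 * p) ^ t := by
              refine mul_le_mul_of_nonneg_right ?_ hp0.le
              have : (n : ℤ) ≤ t := by exact_mod_cast hn'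
              linarith
      · rw [← Finset.mul_sum]
        exact mul_le_mul_of_nonneg_left (sum_pow_le q hq2 t) (by positivity)
    have hs2 : |w * (4 * p) ^ t| ≤ q ^ t * (4 * p) ^ t := by
      rw [abs_mul, abs_of_pos hp0]
      exact mul_le_mul_of_nonneg_right hwq hp0.le
    have hs3 := abs_sub (∑ n ∈ range (t + 1), PowerSeries.coeff n (Sr (-1) (-p)) *
      (4 * p) ^ (t - n) * q ^ n) (w * (4 * p) ^ t)
    have hs4 : (2 * (t : ℤ) + 3) * (4 * p) ^ t < q := by
      refine lt_of_le_of_lt ?_ hcon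
      refine mul_le_mul_of_nonneg_left ?_ (by positivity)
      exact pow_le_pow_right₀ (by omega) (Nat.le_succ t)
    have hs5 : (2 * (t : ℤ) + 3) * (4 * p) ^ t * q ^ t < q * q ^ t :=
      mul_lt_mul_of_pos_right hs4 hq0
    rw [pow_succ' q t]
    refine lt_of_le_of_lt ?_ hs5
    refine hs3.trans ?_
    calc _ ≤ ((t : ℤ) + 1) * (4 * p) ^ t * (2 * q ^ t) + q ^ t * (4 * p) ^ t :=
          add_le_add hs1 hs2
      _ = (2 * (t : ℤ) + 3) * (4 * p) ^ t * q ^ t := by ring
  have hE2 : ∑ n ∈ range (t + 1 + 1), PowerSeries.coeff n (Sr (-1) (-p)) *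
      (4 * p) ^ (t + 1 - n) * q ^ n - w * (4 * p) ^ (t + 1) =
      PowerSeries.coeff (t + 1) (Sr (-1) (-p)) * q ^ (t + 1) := by
    rw [Finset.sum_range_succ]
    have e3 : ∑ n ∈ range (t + 1), PowerSeries.coeff n (Sr (-1) (-p)) *
        (4 * p) ^ (t + 1 - n) * q ^ n = 4 * p * ∑ n ∈ range (t + 1),
        PowerSeries.coeff n (Sr (-1) (-p)) * (4 * p) ^ (t - n) * q ^ n := by
      rw [Finset.mul_sum]
      refine Finset.sum_congr rfl fun n hn => ?_
      have hn' : n ≤ t := Nat.lt_succ_iff.1 (Finset.mem_range.1 hn)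
      rw [Nat.succ_sub hn', pow_succ]
      ring
    rw [e3, Nat.sub_self, pow_zero, pow_succ (4 * p) t]
    linear_combination (4 * p) * hE
  rw [hE2, pow_succ' q (t + 1)] at h2
  have hq1 : q ^ (t + 1) ≠ 0 := by positivity
  have h3 : q ∣ PowerSeries.coeff (t + 1) (Sr (-1) (-p)) := (mul_dvd_mul_iff_right hq1).1 h2
  have h4 := Int.le_of_dvd (hpos (t + 1)) h3
  have h5 := hb (t + 1)
  have h6 : (((t + 1 : ℕ) : ℤ) + 1) * (4 * p) ^ (t + 1) ≤ (2 * (t : ℤ) + 3) * (4 * p) ^ (t + 1) := by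
    refine mul_le_mul_of_nonneg_right ?_ (by positivity)
    push_cast
    linarith
  linarith

end Pool.Agent.Helper31.BT.TAY
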